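import Pool.Agent.ExT.PubProof

/-!
# A II₁ factor with the Haagerup property and an existential extension with property (T)

For every non-principal ultrafilter `U` on `ℕ` there are an ICC group `G` with property (T) and a
locally finite ICC subgroup `S ≤ G` such that already `S ≤ G` is an existential inclusion of
groups, and such that `N = L(S) ⊆ M = L(G)` is an existential inclusion of II₁ factors with
trivial relative commutant, `N` has the Haagerup property and `M` has property (T).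
-/

namespace Pool.Agent.Results.MP_02fda4_an.ExistentialPropertyT

open Pool.Agent.ExT.Pub

universe v

theorem result (U : Ultrafilter ℕ) (hU : ∀ n : ℕ, U ≠ pure n) :
    ∃ (G : Type) (_ : Group G) (S : Subgroup G),
      IsLocallyFinite S ∧ IsICC S ∧ IsICC G ∧ GroupPropertyT.{0, v} G ∧
      IsExistentialSubgroup U S ∧
      ∃ (H : Type) (_ : NormedAddCommGroup H) (_ : InnerProductSpace ℂ H) (_ : CompleteSpace H)
        (N M : VonNeumannAlgebra H) (Ω : H),
        IsGroupPair S N M Ω ∧ IsII1Factor N Ω ∧ IsII1Factor M Ω ∧ HaagerupProperty N Ω ∧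
        PropertyT.{0, v} M Ω ∧ IsExistential U N M Ω ∧ IsIrreducible N M := by
  have hU' : (U : Filter ℕ) ≤ Filter.cofinite := by
    rcases U.le_cofinite_or_eq_pure with h | ⟨n, h⟩
    · exact h
    · exact absurd h (hU n)
  have h1 := Pool.Agent.ExT.SS_infinite hU'
  have h2 := Pool.Agent.ExT.GG_infinite hU'
  refine ⟨Pool.Agent.ExT.GG U, inferInstance, Pool.Agent.ExT.SS hU',
    Pool.Agent.ExT.SS_locallyFinite hU', Pool.Agent.ExT.SS_icc hU', Pool.Agent.ExT.GG_icc hU',
    Pool.Agent.ExT.pub_groupT (Pool.Agent.ExT.GG_propertyT U),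
    ⟨Pool.Agent.ExT.theta hU', Pool.Agent.ExT.theta_injective hU',
      Pool.Agent.ExT.theta_diag hU'⟩,
    Pool.Agent.InnerAm.ell2 (Pool.Agent.ExT.GG U), inferInstance, inferInstance, inferInstance,
    Pool.Agent.ExT.LSvn (Pool.Agent.ExT.SS hU'), Pool.Agent.ExT.LGvn (Pool.Agent.ExT.GG U),
    Pool.Agent.InnerAm.delta 1, ⟨_, Pool.Agent.ExT.pub_groupRep _⟩, ?_, ?_, ?_, ?_, ?_, ⟨?_⟩⟩
  · exact Pool.Agent.ExT.pub_factor (Pool.Agent.ExT.LS _)
      (Pool.Agent.ExT.LS_factor _ (Pool.Agent.ExT.SS_icc hU'))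
  · exact Pool.Agent.ExT.pub_factor (Pool.Agent.ExT.LG _)
      (Pool.Agent.ExT.LG_factor (Pool.Agent.ExT.GG_icc hU'))
  · exact Pool.Agent.ExT.pub_haagerup (Pool.Agent.ExT.LS _)
      (Pool.Agent.ExT.LS_haagerup _ (Pool.Agent.ExT.SS_locallyFinite hU'))
  · exact Pool.Agent.ExT.pub_propertyT (Pool.Agent.ExT.LG _)
      (Pool.Agent.ExT.LG_propertyT (Pool.Agent.ExT.GG_propertyT U))
  · exact Pool.Agent.ExT.pub_existential (Pool.Agent.ExT.existential_of_asympMaps hU'
      (Pool.Agent.ExT.phi_asymp hU'))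
  · intro z hz h
    obtain ⟨c, hc⟩ := Pool.Agent.ExT.irreducible hU' ⟨z, hz⟩ fun x =>
      Subtype.ext (h x.1 x.2)
    exact ⟨c, congrArg Subtype.val hc⟩

end Pool.Agent.Results.MP_02fda4_an.ExistentialPropertyT
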